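import Pool.Agent.Helper87.KW.TA1

/-!
# Piece TA2 of MP_715b63_an: bump functions, decompositions along bisections
-/

open CategoryTheory Topology
open scoped ENNReal

namespace Pool.Agent.KW

universe u v

section TA2

variable {X : Type u} [Groupoid.{u} X] [TopologicalSpace X] [TopologicalSpace (Arr X)]

/-- Urysohn: a bump function equal to one on (the closed support of) a given function -/
theorem exists_bump_eq_one [EtaleGroupoid X] (K : Set (Arr X)) (hK : IsCompact K)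
    (U : Set (Arr X)) (hU : IsOpen U) (hKU : K ⊆ U) (hs : Set.InjOn Arr.src U)
    (ht : Set.InjOn Arr.tgt U) : ∃ h : Arr X → ℝ, IsBump h ∧ (∀ g ∈ K, h g = 1) ∧
      tsupport h ⊆ U := by
  haveI := EtaleGroupoid.t2 (X := X)
  haveI := EtaleGroupoid.locallyCompact (X := X)
  obtain ⟨k, hkc, hKk, hkU⟩ := exists_compact_between hK hU hKU
  obtain ⟨f, hf1, hf0, hfc, hf⟩ := exists_continuous_one_zero_of_isCompact hK
    (isOpen_interior (s := k)).isClosed_compl (by
      rw [Set.disjoint_compl_right_iff_subset]; exact hKk)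
  have hsub : tsupport (f : Arr X → ℝ) ⊆ U := by
    refine (closure_minimal ?_ hkc.isClosed).trans hkU
    intro x hx
    by_contra hxk
    exact hx (hf0 (fun h => hxk (interior_subset h)))
  refine ⟨f, ⟨f.continuous, hfc, fun g => (hf g).1, fun g => (hf g).2,
    ⟨U, hU, hsub, hs, ht⟩⟩, fun g hg => ?_, hsub⟩
  simpa using hf1 hg

/-- a bump function on the unit space, extended by zero -/
theorem exists_unit_bump [EtaleGroupoid X] (Q : Set X) (hQ : IsCompact Q) :
    ∃ u : Arr X → ℝ, IsBump u ∧ (∀ x ∈ Q, u (unitArr x) = 1) ∧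
      ∀ g, u g ≠ 0 → ∃ x, g = unitArr x := by
  have hcont : Continuous (unitArr : X → Arr X) := EtaleGroupoid.unit_cont
  obtain ⟨u, hu, hu1, hsub⟩ := exists_bump_eq_one ((unitArr : X → Arr X) '' Q)
    (hQ.image hcont) (Set.range unitArr) isOpen_units (Set.image_subset_range _ _)
    (by rintro _ ⟨x, rfl⟩ _ ⟨y, rfl⟩ h; exact congrArg unitArr h)
    (by rintro _ ⟨x, rfl⟩ _ ⟨y, rfl⟩ h; exact congrArg unitArr h)
  refine ⟨u, hu, fun x hx => hu1 _ ⟨x, hx, rfl⟩, fun g hg => ?_⟩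
  obtain ⟨x, hx⟩ := hsub (subset_tsupport u hg)
  exact ⟨x, hx.symm⟩

namespace TA2

/-- every arrow has an open neighbourhood which is a bisection -/
theorem exists_bisection [EtaleGroupoid X] (g : Arr X) :
    ∃ U : Set (Arr X), IsOpen U ∧ g ∈ U ∧ Set.InjOn Arr.src U ∧ Set.InjOn Arr.tgt U := by
  obtain ⟨e, hge, he⟩ := EtaleGroupoid.src_homeo (X := X) g
  obtain ⟨e', hge', he'⟩ := EtaleGroupoid.tgt_homeo (X := X) g
  refine ⟨e.source ∩ e'.source, e.open_source.inter e'.open_source, ⟨hge, hge'⟩, ?_, ?_⟩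
  · intro a ha b hb h
    rw [he] at h
    exact e.injOn ha.1 hb.1 h
  · intro a ha b hb h
    rw [he'] at h
    exact e'.injOn ha.2 hb.2 h

/-- a partition of unity on a compact set, subordinate to open bisections -/
theorem exists_partition [EtaleGroupoid X] (L : Set (Arr X)) (hL : IsCompact L) :
    ∃ (r : ℕ) (f : Fin r → Arr X → ℝ), (∀ i, IsBump (f i)) ∧ ∀ g ∈ L, ∑ i, f i g = 1 := by
  haveI := EtaleGroupoid.t2 (X := X)
  haveI := EtaleGroupoid.locallyCompact (X := X)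
  choose U hUo hgU hUs hUt using fun g : Arr X => exists_bisection g
  obtain ⟨t, ht⟩ := hL.elim_finite_subcover U hUo
    (fun g _ => Set.mem_iUnion.2 ⟨g, hgU g⟩)
  let s : Fin t.card → Set (Arr X) := fun i => U (t.equivFin.symm i)
  obtain ⟨f, hfs, hf1, hf, hfc⟩ := exists_continuous_sum_one_of_isOpen_isCompact (s := s)
    (fun i => hUo _) hL (by
      intro g hg
      obtain ⟨a, ha, hga⟩ := Set.mem_iUnion₂.1 (ht hg)
      refine Set.mem_iUnion.2 ⟨t.equivFin ⟨a, ha⟩, ?_⟩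
      simpa [s] using hga)
  refine ⟨t.card, fun i => f i, fun i => ⟨(f i).continuous, hfc i, fun g => (hf i g).1,
    fun g => (hf i g).2, ⟨s i, hUo _, hfs i, hUs _, hUt _⟩⟩, fun g hg => ?_⟩
  have := hf1 hg
  simpa [ContinuousMap.coe_sum, Finset.sum_apply] using this

theorem bisSupp_of_ne {R S : Type*} [Zero R] [Zero S] {f : Arr X → R} {h : Arr X → S}
    (hf : BisSupp f) (hsub : ∀ g, h g ≠ 0 → f g ≠ 0) : BisSupp h := by
  obtain ⟨U, hU, hfU, hs, ht⟩ := hf
  exact ⟨U, hU, (closure_mono (fun g hg => hsub g hg)).trans hfU, hs, ht⟩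

end TA2

theorem exists_bisection_decomp [EtaleGroupoid X] (η : Arr X → ℂ) (hη : IsCc η) :
    ∃ (r : ℕ) (ξ : Fin r → Arr X → ℂ), (∀ i, IsCc (ξ i) ∧ BisSupp (ξ i)) ∧
      ∀ g, η g = ∑ i, ξ i g := by
  obtain ⟨r, f, hf, hf1⟩ := TA2.exists_partition (tsupport η) hη.2
  refine ⟨r, fun i g => (f i g : ℂ) * η g, fun i => ⟨⟨?_, ?_⟩, ?_⟩, fun g => ?_⟩
  · exact (Complex.continuous_ofReal.comp (hf i).cont).mul hη.1
  · exact hη.2.mul_left
  · refine TA2.bisSupp_of_ne (hf i).bis (fun g hg h0 => hg ?_)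
    simp [h0]
  · by_cases hg : η g = 0
    · simp [hg]
    · rw [← Finset.sum_mul, ← Complex.ofReal_sum, hf1 g (subset_tsupport η hg)]
      simp

theorem exists_quad_partition [EtaleGroupoid X] (L : Set (Arr X)) (hL : IsCompact L) :
    ∃ (r : ℕ) (θ : Fin r → Arr X → ℝ), (∀ i, IsBump (θ i)) ∧ (∀ g, ∑ i, θ i g ^ 2 ≤ 1) ∧
      ∀ g ∈ L, ∑ i, θ i g ^ 2 = 1 := by
  haveI := EtaleGroupoid.t2 (X := X)
  obtain ⟨r, f, hf, hf1⟩ := TA2.exists_partition L hL
  have hpos : ∀ g, (0 : ℝ) < max 1 (∑ j, f j g) := fun g => lt_max_of_lt_left one_pos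
  have hnn : ∀ g, 0 ≤ ∑ j, f j g := fun g => Finset.sum_nonneg fun j _ => (hf j).nonneg g
  have hsq : ∀ g, ∑ i, (Real.sqrt (f i g / max 1 (∑ j, f j g))) ^ 2
      = (∑ j, f j g) / max 1 (∑ j, f j g) := by
    intro g
    rw [Finset.sum_div]
    refine Finset.sum_congr rfl fun i _ => ?_
    rw [Real.sq_sqrt (div_nonneg ((hf i).nonneg g) (hpos g).le)]
  have hle : ∀ g, ∑ i, (Real.sqrt (f i g / max 1 (∑ j, f j g))) ^ 2 ≤ 1 := by
    intro g
    rw [hsq, div_le_one (hpos g)]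
    exact le_max_right _ _
  refine ⟨r, fun i g => Real.sqrt (f i g / max 1 (∑ j, f j g)), fun i => ?_, hle,
    fun g hg => ?_⟩
  · have hne : ∀ g, Real.sqrt (f i g / max 1 (∑ j, f j g)) ≠ 0 → f i g ≠ 0 := by
      intro g hg h0
      exact hg (by simp [h0])
    refine ⟨?_, ?_, fun g => Real.sqrt_nonneg _, fun g => ?_, ?_⟩
    · refine Real.continuous_sqrt.comp ((hf i).cont.div ?_ fun g => (hpos g).ne')
      exact continuous_const.max (continuous_finsetSum _ fun j _ => (hf j).cont)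
    · exact (hf i).cpt.mono (fun g hg => hne g hg)
    · rw [Real.sqrt_le_one]
      rw [div_le_one (hpos g)]
      exact ((hf i).le_one g).trans (le_max_left _ _)
    · exact TA2.bisSupp_of_ne (hf i).bis hne
  · show ∑ i, (Real.sqrt (f i g / max 1 (∑ j, f j g))) ^ 2 = 1
    rw [hsq, hf1 g hg]
    simp

end TA2

end Pool.Agent.KW
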